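import Mathlib
import Pool.Agent.H19.Nonuni

set_option autoImplicit false

namespace Pool.Agent.Results.MP_57825d_lc.BoundedNonuniform

open Encodable Nat.Partrec Pool.Agent.H19

/-- Condition (i) on the cone above `P`: the operator with code `r` is a solution to Post's
problem, `X <_T W_r^X <_T X'`, at every oracle `X` which computes `P`. -/
def SolvesPostAbove (P : ℕ → Bool) (r : Code) : Prop :=
  ∀ X : ℕ → Bool, TuringReducible (chr {n | P n = true}) (chr {n | X n = true}) →
    TuringReducible (chr {n | X n = true}) (chr (opSet r X)) ∧
    ¬ TuringReducible (chr (opSet r X)) (chr {n | X n = true}) ∧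
    TuringReducible (chr (opSet r X)) (chr (jumpSet X)) ∧
    ¬ TuringReducible (chr (jumpSet X)) (chr (opSet r X))

/-- Above every base `P` there is an oracle `X` at which the degree invariance of a solution to
Post's problem is not boundedly non-uniform: no finite list `L` of procedures with oracle `W_r^X`,
given indices `(i, j)` of reductions between `X` and `Y`, always contains a reduction of `W_r^Y`
to `W_r^X`; and this already fails for the finite modifications `Y` of `X`. -/
theorem result (r : Code) (P : ℕ → Bool) (h : SolvesPostAbove P r) :
    ∃ X : ℕ → Bool, TuringReducible (chr {n | P n = true}) (chr {n | X n = true}) ∧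
      ∀ L : List Code, ∃ (Y : ℕ → Bool) (i j : Code),
        {n | X n ≠ Y n}.Finite ∧
        IsReduction i {n | Y n = true} {n | X n = true} ∧
        IsReduction j {n | X n = true} {n | Y n = true} ∧
        ∀ c ∈ L, ¬ IsReductionWith c (encode (i, j)) (opSet r Y) (opSet r X) :=
  bounded_nonuniform r P fun X hX => ⟨(h X hX).1, (h X hX).2.1, (h X hX).2.2.2⟩

end Pool.Agent.Results.MP_57825d_lc.BoundedNonuniform
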