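import Mathlib
import Pool.Agent.H19.Post

set_option autoImplicit false

namespace Pool.Agent.Results.MP_57825d_lc.HyperfiniteInvariant

open Nat.Partrec Pool.Agent.H19

/-- Condition (i): the operator with code `r` is a solution to Post's problem at every oracle,
`X <_T W_r^X <_T X'`. -/
def SolvesPost (r : Code) : Prop :=
  ∀ X : ℕ → Bool,
    TuringReducible (chr {n | X n = true}) (chr (opSet r X)) ∧
    ¬ TuringReducible (chr (opSet r X)) (chr {n | X n = true}) ∧
    TuringReducible (chr (opSet r X)) (chr (jumpSet X)) ∧
    ¬ TuringReducible (chr (jumpSet X)) (chr (opSet r X))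

/-- `W_r^X ≡_T W_r^Y`. -/
def SameDegree (r : Code) (X Y : ℕ → Bool) : Prop :=
  TuringReducible (chr (opSet r X)) (chr (opSet r Y)) ∧
    TuringReducible (chr (opSet r Y)) (chr (opSet r X))

/-- For every computably hyperfinite equivalence relation on Cantor space there is an operator
which solves Post's problem at every oracle and which is degree invariant along the relation.
(An instance: `X` and `Y` differ by the symmetric difference of finitely many members of a
uniformly computable sequence of sets, for example by a finite set; see
`Pool.Agent.H19.compHypFin_trans` and `Pool.Agent.H19.levelRel_of_finset`.) -/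
theorem result (k : ℕ → ℕ) (T : ℕ → ℕ → List Bool → List Bool) (h : CompHypFin k T) :
    ∃ r : Code, SolvesPost r ∧
      ∀ (e : ℕ) (X Y : ℕ → Bool), LevelRel k T e X Y → SameDegree r X Y :=
  main_construction h

end Pool.Agent.Results.MP_57825d_lc.HyperfiniteInvariant
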