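import Mathlib
import Pool.Agent.CMD.FIN
import Pool.Agent.CMD.LIM

set_option autoImplicit false

namespace Pool.Agent.Results.MP_57825d_lc.JumpIntervals

open Nat.Partrec Pool.Agent.H19

/-- Condition (i): the operator with code `r` is a solution to Post's problem at every oracle,
`X <_T W_r^X <_T X'`. -/
def SolvesPost (r : Code) : Prop :=
  ∀ X : ℕ → Bool,
    TuringReducible (chr {n | X n = true}) (chr (opSet r X)) ∧
    ¬ TuringReducible (chr (opSet r X)) (chr {n | X n = true}) ∧
    TuringReducible (chr (opSet r X)) (chr (jumpSet X)) ∧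
    ¬ TuringReducible (chr (jumpSet X)) (chr (opSet r X))

/-- `A ≡_T B`. -/
def SameDegree (A B : Set ℕ) : Prop :=
  TuringReducible (chr A) (chr B) ∧ TuringReducible (chr B) (chr A)

/-- Condition (ii) at `X`: every `Y ≡_T X` has `W_r^Y ≡_T W_r^X`. -/
def InvariantAt (r : Code) (X : ℕ → Bool) : Prop :=
  ∀ Y : ℕ → Bool, SameDegree {m | Y m = true} {m | X m = true} →
    SameDegree (opSet r Y) (opSet r X)

open Classical in
/-- The `n`-th iterate `∅^(n)` of the jump of the empty set. -/
noncomputable def zeroJump : ℕ → ℕ → Bool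
  | 0 => fun _ => false
  | n + 1 => fun p => decide (p ∈ jumpSet (zeroJump n))

/-- `P ≤_T X ≤_T P'`. -/
def Between (P X : ℕ → Bool) : Prop :=
  TuringReducible (chr {k | P k = true}) (chr {k | X k = true}) ∧
    TuringReducible (chr {k | X k = true}) (chr (jumpSet P))

/-- `P` is a lightface `Π_2` singleton: a computable test `t` is true at infinitely many initial
segments of `P`, and of no other sequence. -/
def Pi2Singleton (P : ℕ → Bool) : Prop :=
  ∃ t : List Bool → Bool, Computable t ∧
    ∀ Q : ℕ → Bool, (∀ N, ∃ s ≥ N, t ((List.range s).map Q) = true) ↔ Q = P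

/-- Some lightface `Π_2` class has exactly one member which is Turing equivalent to `X`: a
computable test `t` is true at infinitely many initial segments of `Z ≡_T X`, and of no other
sequence which is Turing equivalent to `X`. -/
def UniqueInClass (X : ℕ → Bool) : Prop :=
  ∃ (t : List Bool → Bool) (Z : ℕ → Bool), Computable t ∧
    SameDegree {m | Z m = true} {m | X m = true} ∧
    ∀ Y : ℕ → Bool, SameDegree {m | Y m = true} {m | X m = true} →
      ((∀ N, ∃ s ≥ N, t ((List.range s).map Y) = true) ↔ Y = Z)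

theorem chr_seq (X : ℕ → Bool) : chr {n | X n = true} = chi X := chr_eq_chi fun _ => Iff.rfl

theorem SameDegree.symm {A B : Set ℕ} (h : SameDegree A B) : SameDegree B A := ⟨h.2, h.1⟩

theorem SameDegree.trans {A B C : Set ℕ} (h : SameDegree A B) (h' : SameDegree B C) :
    SameDegree A C := ⟨h.1.trans h'.1, h'.2.trans h.2⟩

theorem zeroJump_eq (n : ℕ) : zeroJump n = AEI.zj n := by
  induction n with
  | zero => rfl
  | succ n ih =>
    funext p
    have h1 : zeroJump (n + 1) p = true ↔ p ∈ jumpSet (zeroJump n) := by simp [zeroJump]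
    rw [Bool.eq_iff_iff, h1, ih, AEI.zj, AEI.JJ_iff]
    exact exists_cvg

/-- The finite jumps of the empty set are `Π_2` singletons. -/
theorem zeroJump_singleton (n : ℕ) : Pi2Singleton (zeroJump n) := by
  rw [zeroJump_eq]
  exact CMD.P2_test (CMD.P2_zj n)

/-- Every sequence between a `Π_2` singleton and its jump is equivalent to a `Π_2` singleton. -/
theorem uniqueInClass_of_between {P X : ℕ → Bool} (hP : Pi2Singleton P) (h : Between P X) :
    UniqueInClass X := by
  obtain ⟨h1, h2⟩ := h
  rw [chr_seq, chr_seq] at h1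
  rw [chr_seq, AEI.chr_jumpSet] at h2
  have hP2 : CMD.P2 P := by
    obtain ⟨t, ht, hu⟩ := hP
    refine ⟨fun _ σ => t σ, ht.comp Computable.snd, fun Q => ?_⟩
    rw [← hu Q]
    exact ⟨fun h => h 0, fun h _ => h⟩
  obtain ⟨t, ht, hu⟩ := CMD.P2_test (CMD.P2_limit hP2 (X := X) h2)
  refine ⟨t, AEI.jn P X, ht, ?_, fun Y _ => hu Y⟩
  constructor
  · rw [chr_seq, chr_seq]
    exact AEI.jn_le h1 (TuringReducible.refl _)
  · rw [chr_seq, chr_seq]
    exact AEI.right_le_jn _ _

/-- There is an operator `W_r` which solves Post's problem at every oracle and which is degree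
invariant at every `X` such that some lightface `Π_2` class has exactly one member equivalent to
`X`; in particular at every `X` with `P ≤_T X ≤_T P'` for a `Π_2` singleton `P`, for instance
with `∅^(n) ≤_T X ≤_T ∅^(n+1)` for some `n`. -/
theorem result : ∃ r : Code, SolvesPost r ∧
    ∀ X : ℕ → Bool, (UniqueInClass X ∨ (∃ P, Pi2Singleton P ∧ Between P X) ∨
      ∃ n, Between (zeroJump n) X) → InvariantAt r X := by
  obtain ⟨r, hr, h2, h3, h4⟩ := CMD.main_def
  have hW : ∀ X, chr (opSet r X) = chi (CMG.WX CMD.dsys X) := fun X => chr_eq_chi (hr X)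
  refine ⟨r, fun X => ⟨?_, ?_, ?_, ?_⟩, ?_⟩
  · rw [hW, chr_seq]
    exact AEI.left_le_jn _ _
  · rw [hW, chr_seq]
    exact h2 X
  · rw [hW, AEI.chr_jumpSet]
    exact AEI.code_le_JJ (hr X)
  · rw [hW, AEI.chr_jumpSet]
    exact h3 X
  · intro X hX
    have hX' : UniqueInClass X := by
      rcases hX with h | ⟨P, hP, h⟩ | ⟨n, h⟩
      · exact h
      · exact uniqueInClass_of_between hP h
      · exact uniqueInClass_of_between (zeroJump_singleton n) h
    obtain ⟨t, Z, ht, hZX, hu⟩ := hX'
    have key : ∀ Y : ℕ → Bool, SameDegree {m | Y m = true} {m | X m = true} →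
        SameDegree (opSet r Y) (opSet r Z) := by
      intro Y hY
      have hYZ := hY.trans hZX.symm
      obtain ⟨h5, h6⟩ := hYZ
      rw [chr_seq, chr_seq] at h5 h6
      obtain ⟨h7, h8⟩ := h4 t Z ht ((hu Z hZX).2 rfl) (by
        intro Z' k1 k2 k3
        refine (hu Z' ?_).1 k3
        refine SameDegree.trans ⟨?_, ?_⟩ hZX
        · rw [chr_seq, chr_seq]; exact k1
        · rw [chr_seq, chr_seq]; exact k2) Y h5 h6
      refine ⟨?_, ?_⟩
      · rw [hW, hW]; exact h7
      · rw [hW, hW]; exact h8
    intro Y hY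
    exact (key Y hY).trans (key X ⟨TuringReducible.refl _, TuringReducible.refl _⟩).symm

end Pool.Agent.Results.MP_57825d_lc.JumpIntervals
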