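import Mathlib
import Pool.Agent.H19.OneShift

set_option autoImplicit false

namespace Pool.Agent.Results.MP_57825d_lc.NoUniformShift

open Encodable Nat.Partrec Pool.Agent.H19

/-- Condition (i) on the cone above `P`: the operator with code `r` is a solution to Post's
problem, `X <_T W_r^X <_T X'`, at every oracle `X` which computes `P`. -/
def SolvesPostAbove (P : ℕ → Bool) (r : Code) : Prop :=
  ∀ X : ℕ → Bool, TuringReducible (chr {n | P n = true}) (chr {n | X n = true}) →
    TuringReducible (chr {n | X n = true}) (chr (opSet r X)) ∧
    ¬ TuringReducible (chr (opSet r X)) (chr {n | X n = true}) ∧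
    TuringReducible (chr (opSet r X)) (chr (jumpSet X)) ∧
    ¬ TuringReducible (chr (jumpSet X)) (chr (opSet r X))

/-- The sequence of bits with the first bit deleted. -/
def tail (X : ℕ → Bool) : ℕ → Bool := fun n => X (n + 1)

/-- A solution to Post's problem is not uniformly invariant even under the deletion of the first
bit: if `W_r` solves Post's problem on the cone above `P`, then no procedure `c` computes
`W_r^(tail X)` from `W_r^X` for all `X` in that cone. -/
theorem result (r : Code) (P : ℕ → Bool) (h : SolvesPostAbove P r) (c : Code) :
    ∃ X : ℕ → Bool, TuringReducible (chr {n | P n = true}) (chr {n | X n = true}) ∧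
      ¬ IsReduction c (opSet r (tail X)) (opSet r X) := by
  obtain ⟨X, h1, h2⟩ := not_uniform_shift r P
    (fun X hX => ⟨(h X hX).1, (h X hX).2.1, (h X hX).2.2.2⟩) c
  refine ⟨X, h1, ?_⟩
  have h3 : shB 1 X = tail X := by funext n; simp [shB, tail, Nat.add_comm]
  rwa [h3] at h2

end Pool.Agent.Results.MP_57825d_lc.NoUniformShift
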