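import Mathlib
import Pool.Agent.H51.TE.Orbit

set_option autoImplicit false

namespace Pool.Agent.Results.MP_57825d_lc.OrbitInvariant

open Nat.Partrec Pool.Agent.H19 Pool.Agent.H51.TE

/-- `f` is a total computable map of Cantor space: it is induced by a computable monotone function
on finite strings. -/
def IsCompMap (f : (ℕ → Bool) → ℕ → Bool) : Prop :=
  ∃ F : List Bool → List Bool, Computable F ∧ (∀ σ τ, σ <+: τ → F σ <+: F τ) ∧
    ∀ X : ℕ → Bool, Maps F X (f X)

/-- Condition (i): the operator with code `r` is a solution to Post's problem at every oracle,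
`X <_T W_r^X <_T X'`. -/
def SolvesPost (r : Code) : Prop :=
  ∀ X : ℕ → Bool,
    TuringReducible (chr {n | X n = true}) (chr (opSet r X)) ∧
    ¬ TuringReducible (chr (opSet r X)) (chr {n | X n = true}) ∧
    TuringReducible (chr (opSet r X)) (chr (jumpSet X)) ∧
    ¬ TuringReducible (chr (jumpSet X)) (chr (opSet r X))

/-- `W_r^X ≡_T W_r^Y`. -/
def SameDegree (r : Code) (X Y : ℕ → Bool) : Prop :=
  TuringReducible (chr (opSet r X)) (chr (opSet r Y)) ∧
    TuringReducible (chr (opSet r Y)) (chr (opSet r X))

theorem SameDegree.refl (r : Code) (X : ℕ → Bool) : SameDegree r X X :=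
  ⟨TuringReducible.refl _, TuringReducible.refl _⟩

theorem SameDegree.symm {r : Code} {X Y : ℕ → Bool} (h : SameDegree r X Y) : SameDegree r Y X :=
  ⟨h.2, h.1⟩

theorem SameDegree.trans {r : Code} {X Y Z : ℕ → Bool} (h : SameDegree r X Y)
    (h' : SameDegree r Y Z) : SameDegree r X Z :=
  ⟨h.1.trans h'.1, h'.2.trans h.2⟩

/-- A finite family of computable string functions is uniformly computable. -/
theorem exists_uniform {k : ℕ} (G : Fin k → List Bool → List Bool) (hG : ∀ j, Computable (G j)) :
    ∃ H : ℕ → List Bool → List Bool, Computable (fun p : ℕ × List Bool => H p.1 p.2) ∧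
      ∀ j : Fin k, H j = G j := by
  induction k with
  | zero => exact ⟨fun _ _ => [], Computable.const [], fun j => j.elim0⟩
  | succ k ih =>
    obtain ⟨H, h1, h2⟩ := ih (fun j => G j.castSucc) (fun j => hG j.castSucc)
    refine ⟨fun n σ => if decide (n = k) then G (Fin.last k) σ else H n σ, ?_, fun j => ?_⟩
    · exact comp_ite (c := fun p : ℕ × List Bool => decide (p.1 = k))
        (comp_decEq Computable.fst (Computable.const k))
        ((hG (Fin.last k)).comp Computable.snd) h1
    · funext σ
      by_cases hj : (j : ℕ) = k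
      · have : j = Fin.last k := Fin.ext hj
        subst this
        simp
      · have hlt : (j : ℕ) < k := by have := j.2; omega
        have h3 := h2 ⟨j, hlt⟩
        simp only [hj, decide_false, Bool.false_eq_true, if_false]
        exact congrFun h3 σ

/-- Let `f` be a computable map of Cantor space which has finitely many computable right inverses
whose ranges cover Cantor space (for example the map which deletes the first bit, or a computable
homeomorphism with computable inverse). There is an operator which solves Post's problem at every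
oracle and which is degree invariant along the orbits of `f`: `W_r^X ≡_T W_r^Y` whenever some
iterate of `f` at `X` equals some iterate of `f` at `Y`. -/
theorem result {k : ℕ} (f : (ℕ → Bool) → ℕ → Bool) (g : Fin k → (ℕ → Bool) → ℕ → Bool)
    (hf : IsCompMap f) (hg : ∀ j, IsCompMap (g j)) (hfg : ∀ j Y, f (g j Y) = Y)
    (hcov : ∀ X, ∃ j, g j (f X) = X) :
    ∃ r : Code, SolvesPost r ∧
      ∀ (X Y : ℕ → Bool) (m n : ℕ), f^[m] X = f^[n] Y → SameDegree r X Y := by
  obtain ⟨F, hFc, hFm, hFX⟩ := hf
  have hF : CFun F f := ⟨hFm, hFX⟩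
  choose G0 hG0c hG0m hG0X using hg
  obtain ⟨H, hHc, hH⟩ := exists_uniform G0 hG0c
  have hk : 0 < k := by
    obtain ⟨j, _⟩ := hcov (fun _ => false)
    exact lt_of_le_of_lt (Nat.zero_le _) j.2
  let γ : ℕ → (ℕ → Bool) → ℕ → Bool := fun n => g ⟨n % k, Nat.mod_lt n hk⟩
  let G : ℕ → List Bool → List Bool := fun n => H (n % k)
  have hG : ∀ n, CFun (G n) (γ n) := by
    intro n
    have h1 : G n = G0 ⟨n % k, Nat.mod_lt n hk⟩ := hH ⟨n % k, Nat.mod_lt n hk⟩
    rw [h1]
    exact ⟨hG0m _, hG0X _⟩
  have hGc : Computable (fun p : ℕ × List Bool => G p.1 p.2) :=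
    Computable.comp (f := fun p : ℕ × List Bool => H p.1 p.2)
      (g := fun p : ℕ × List Bool => (p.1 % k, p.2)) hHc
      ((comp_mod Computable.fst (Computable.const k)).pair Computable.snd)
  have hγ : ∀ n Y, f (γ n Y) = Y := fun n Y => hfg _ Y
  have hcov' : ∀ X, ∃ n < k, γ n (f X) = X := by
    intro X
    obtain ⟨j, hj⟩ := hcov X
    refine ⟨j, j.2, ?_⟩
    have h1 : (⟨(j : ℕ) % k, Nat.mod_lt _ hk⟩ : Fin k) = j := Fin.ext (Nat.mod_eq_of_lt j.2)
    show g ⟨(j : ℕ) % k, Nat.mod_lt _ hk⟩ (f X) = X
    rw [h1]; exact hj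
  obtain ⟨m, Gp, hm, hGp, hpar⟩ := exists_par hF hFc
  obtain ⟨r, hr1, hr2⟩ := liminf_construction
    (compFin (K := k) hF hFc hG hGc hm hGp hpar hγ hcov')
  have hstep : ∀ X, SameDegree r X (f X) := by
    intro X
    obtain ⟨e0, he0⟩ := sPt_eventually hpar X
    exact hr2 e0 X (f X) fun e he => (levelRel_iff hF hG hpar hγ hcov').2 (he0 e he)
  have hiter : ∀ (n : ℕ) (X : ℕ → Bool), SameDegree r X (f^[n] X) := by
    intro n
    induction n with
    | zero => exact fun X => SameDegree.refl r X
    | succ n ih =>
      intro X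
      rw [Function.iterate_succ_apply]
      exact (hstep X).trans (ih (f X))
  refine ⟨r, hr1, fun X Y m n hXY => ?_⟩
  have h1 := hiter m X
  rw [hXY] at h1
  exact h1.trans (hiter n Y).symm

/-! ### Example: the map which deletes the first bit -/

/-- Deleting the first bit. -/
def tail (X : ℕ → Bool) : ℕ → Bool := fun n => X (n + 1)

/-- Writing a bit in front. -/
def push (b : Bool) (X : ℕ → Bool) : ℕ → Bool := fun n => Nat.casesOn n b X

theorem isCompMap_tail : IsCompMap tail := by
  refine ⟨List.tail, Primrec.list_tail.to_comp, fun σ τ h => ?_, fun X n => ⟨n + 2, ?_⟩⟩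
  · obtain ⟨v, rfl⟩ := h
    cases σ with
    | nil => exact List.nil_prefix
    | cons a σ => exact List.prefix_append σ v
  · rw [List.getElem?_tail, pre_getElem? X (by omega)]
    rfl

theorem isCompMap_push (b : Bool) : IsCompMap (push b) := by
  refine ⟨fun σ => b :: σ, Computable.list_cons.comp (Computable.const b) Computable.id,
    fun σ τ h => ?_, fun X n => ⟨n + 1, ?_⟩⟩
  · obtain ⟨v, rfl⟩ := h
    exact ⟨v, rfl⟩
  · cases n with
    | zero => rfl
    | succ n =>
      rw [List.getElem?_cons_succ, pre_getElem? X (by omega)]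
      rfl

/-- One operator solves Post's problem at every oracle and is degree invariant on tail
equivalence: `X` and `Y` become equal after deleting finitely many bits from each. -/
theorem tail_equivalence : ∃ r : Code, SolvesPost r ∧
    ∀ (X Y : ℕ → Bool) (m n : ℕ), tail^[m] X = tail^[n] Y → SameDegree r X Y := by
  refine result (k := 2) tail (fun j => push (decide ((j : ℕ) = 0))) isCompMap_tail
    (fun j => isCompMap_push _) (fun j Y => rfl) fun X => ?_
  rcases hX : X 0 with _ | _
  · refine ⟨1, funext fun n => ?_⟩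
    cases n with
    | zero => simp [push, hX]
    | succ n => rfl
  · refine ⟨0, funext fun n => ?_⟩
    cases n with
    | zero => simp [push, hX]
    | succ n => rfl

end Pool.Agent.Results.MP_57825d_lc.OrbitInvariant
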